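import Pool.Agent.H17.FM.Br
import Pool.Agent.H24.Ts
import Pool.Agent.H51.TwoLev.Main
import Pool.Agent.H75.VC.Numbers
import Pool.Agent.H31.LB.ESet

set_option autoImplicit false

namespace Pool.Agent.H80.Vc

open Finset

open Classical in
/-- entropy of a function on a uniform finite space -/
noncomputable def ent {Ω β : Type*} [Fintype Ω] (f : Ω → β) : ℝ :=
  (∑ x, Real.log ((Fintype.card Ω : ℝ) / (#{x' | f x' = f x} : ℝ))) / Fintype.card Ω

theorem ent_eq_S {Ω β : Type*} [Fintype Ω] [Nonempty Ω] (f : Ω → β) :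
    ent f = Real.log (Fintype.card Ω) - H24.Sh.S f / Fintype.card Ω := by
  classical
  unfold ent H24.Sh.S H24.Sh.fib
  have hN : (0 : ℝ) < Fintype.card Ω := by exact_mod_cast Fintype.card_pos
  have h : ∀ x : Ω, Real.log ((Fintype.card Ω : ℝ) / (#{x' | f x' = f x} : ℝ)) =
      Real.log (Fintype.card Ω) - Real.log (#{x' | f x' = f x} : ℝ) := by
    intro x
    have : 0 < (univ.filter (fun x' => f x' = f x)).card := Finset.card_pos.2 ⟨x, by simp⟩
    rw [Real.log_div hN.ne' (by positivity)]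
  rw [eq_sub_iff_add_eq, ← add_div, div_eq_iff hN.ne']
  have h2 : ∑ x : Ω, Real.log ((Fintype.card Ω : ℝ) / (#{x' | f x' = f x} : ℝ)) =
      ∑ x : Ω, (Real.log (Fintype.card Ω) - Real.log (#{x' | f x' = f x} : ℝ)) :=
    Finset.sum_congr rfl fun x _ => h x
  rw [h2, Finset.sum_sub_distrib, Finset.sum_const, Finset.card_univ, nsmul_eq_mul]
  ring

/-- (I1) -/
theorem step {L α β τ I : Type*} [Fintype L] [Nonempty L] [Fintype I] [DecidableEq I]
    (mt : L → L → L) (F : L → β) (t : L → τ) (c : I → L → α) (B : τ → Finset I)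
    (b : ℝ) (hb : 0 ≤ b)
    (hFt : ∀ z z', F z = F z' → t z = t z')
    (hcF : ∀ z z', t z = t z' → (∀ i, c i z = c i z') → F z = F z')
    (htt : ∀ x x' y y', t x = t x' → t y = t y' → t (mt x y) = t (mt x' y'))
    (h1 : ∀ x x' y y', t x = t x' → t y = t y' → F (mt x y) = F (mt x' y') →
      ∀ i ∈ B (t y), c i x = c i x')
    (h2 : ∀ x x' y y', t x = t x' → t y = t y' → F (mt x y) = F (mt x' y') →
      ∀ i ∈ B (t x), c i y = c i y')
    (hB : ∀ i, b * (Fintype.card L : ℝ) ≤ ((univ.filter fun y => i ∈ B (t y)).card : ℝ)) :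
    ent (fun p : L × L => t (mt p.1 p.2)) + 2 * b * (ent F - ent t) ≤
      ent (fun p : L × L => F (mt p.1 p.2)) := by
  have h := Pool.Agent.H24.Sh.two_step mt F t c B b hb hFt hcF htt h1 h2 hB
  have hN : (0 : ℝ) < Fintype.card L := by exact_mod_cast Fintype.card_pos
  have hN2 : (0 : ℝ) < Fintype.card (L × L) := by exact_mod_cast Fintype.card_pos
  rw [ent_eq_S, ent_eq_S, ent_eq_S, ent_eq_S]
  have e : (Fintype.card (L × L) : ℝ) = Fintype.card L * Fintype.card L := by
    rw [Fintype.card_prod]; push_cast; ring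
  set N : ℝ := (Fintype.card L : ℝ) with hNd
  set A := H24.Sh.S (fun p : L × L => F (mt p.1 p.2)) with hA
  set T := H24.Sh.S (fun p : L × L => t (mt p.1 p.2)) with hT
  set a := H24.Sh.S F with ha
  set s := H24.Sh.S t with hs
  rw [e]
  have h3 : A / (N * N) + 2 * b * (s / N - a / N) ≤ T / (N * N) := by
    have h4 : A / (N * N) + 2 * b * (s / N - a / N) = (A + 2 * b * N * (s - a)) / (N * N) := by
      field_simp
    rw [h4]
    exact div_le_div_of_nonneg_right h (by positivity)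
  linarith

open Classical in
/-- Gibbs' inequality -/
theorem gibbs {Ω β : Type*} [Fintype Ω] [Nonempty Ω] (f : Ω → β) (rho : β → ℝ)
    (h0 : ∀ p, 0 < rho (f p)) (h1 : ∑ v ∈ univ.image f, rho v ≤ 1) :
    ent f ≤ (∑ p, -Real.log (rho (f p))) / Fintype.card Ω := by
  unfold ent
  have hN : (0 : ℝ) < Fintype.card Ω := by exact_mod_cast Fintype.card_pos
  refine div_le_div_of_nonneg_right ?_ hN.le
  have hfib : ∀ p : Ω, (0 : ℝ) < (#{x' | f x' = f p} : ℝ) := by
    intro p
    have : 0 < (univ.filter (fun x' => f x' = f p)).card := Finset.card_pos.2 ⟨p, by simp⟩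
    exact_mod_cast this
  have hkey : ∀ p : Ω, Real.log ((Fintype.card Ω : ℝ) / (#{x' | f x' = f p} : ℝ)) -
      -Real.log (rho (f p)) ≤
      Fintype.card Ω * (rho (f p) / (#{x' | f x' = f p} : ℝ)) - 1 := by
    intro p
    rw [sub_neg_eq_add, ← Real.log_mul (div_pos hN (hfib p)).ne' (h0 p).ne']
    refine (Real.log_le_sub_one_of_pos (mul_pos (div_pos hN (hfib p)) (h0 p))).trans (le_of_eq ?_)
    ring
  have hsum : ∑ p : Ω, rho (f p) / (#{x' | f x' = f p} : ℝ) = ∑ v ∈ univ.image f, rho v := by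
    rw [← Finset.sum_fiberwise_of_maps_to (s := univ) (t := univ.image f) (g := f)
      (fun x _ => Finset.mem_image_of_mem f (Finset.mem_univ x))]
    refine Finset.sum_congr rfl fun v hv => ?_
    obtain ⟨x, -, rfl⟩ := Finset.mem_image.1 hv
    rw [Finset.sum_congr rfl (g := fun _ => rho (f x) / (#{x' | f x' = f x} : ℝ))]
    · rw [Finset.sum_const, nsmul_eq_mul]
      have := (hfib x).ne'
      field_simp
    · intro y hy
      rw [(Finset.mem_filter.1 hy).2]
  have h2 := Finset.sum_le_sum (fun p (_ : p ∈ (univ : Finset Ω)) => hkey p)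
  rw [Finset.sum_sub_distrib, Finset.sum_sub_distrib, ← Finset.mul_sum, hsum] at h2
  simp only [Finset.sum_const, Finset.card_univ, nsmul_eq_mul, mul_one] at h2
  have h3 : (Fintype.card Ω : ℝ) * ∑ v ∈ univ.image f, rho v ≤ Fintype.card Ω * 1 :=
    mul_le_mul_of_nonneg_left h1 hN.le
  linarith

open Classical in
/-- an event which is rare for the uniform law and frequent for a law -/
theorem kl {Ω L : Type*} [Fintype Ω] [Nonempty Ω] [Fintype L] [Nonempty L] (f : Ω → L)
    (E : Finset L) (q : ℝ) (hq0 : 0 < q) (hq1 : q ≤ 1)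
    (hE : (E.card : ℝ) ≤ q * Fintype.card L)
    (h : (Fintype.card Ω : ℝ) / 4 ≤ (#{p | f p ∈ E} : ℝ)) :
    ent f ≤ Real.log 2 + Real.log (Fintype.card L) - 1 / 4 * Real.log (1 / q) := by
  have hΩ : (0 : ℝ) < Fintype.card Ω := by exact_mod_cast Fintype.card_pos
  have hN : (0 : ℝ) < Fintype.card L := by exact_mod_cast Fintype.card_pos
  set N : ℝ := (Fintype.card L : ℝ) with hNd
  set rho : L → ℝ := fun v => if v ∈ E then 1 / (2 * q * N) else 1 / (2 * N) with hrho
  have hpos : ∀ v, 0 < rho v := by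
    intro v
    simp only [hrho]
    split_ifs <;> positivity
  have hle : ∑ v, rho v ≤ 1 := by
    have h1 : ∀ v, rho v ≤ (if v ∈ E then 1 / (2 * q * N) else 0) + 1 / (2 * N) := by
      intro v
      simp only [hrho]
      split_ifs
      · have : (0 : ℝ) < 1 / (2 * N) := by positivity
        linarith
      · linarith
    refine (Finset.sum_le_sum fun v _ => h1 v).trans ?_
    rw [Finset.sum_add_distrib, Finset.sum_ite_mem, Finset.univ_inter, Finset.sum_const,
      Finset.sum_const, Finset.card_univ, nsmul_eq_mul, nsmul_eq_mul, ← hNd]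
    have h2 : (E.card : ℝ) * (1 / (2 * q * N)) ≤ q * N * (1 / (2 * q * N)) :=
      mul_le_mul_of_nonneg_right hE (by positivity)
    have h3 : q * N * (1 / (2 * q * N)) = 1 / 2 := by field_simp
    have h4 : N * (1 / (2 * N)) = 1 / 2 := by field_simp
    linarith
  have h1 : ∑ v ∈ univ.image f, rho v ≤ 1 :=
    (Finset.sum_le_sum_of_subset_of_nonneg (Finset.subset_univ _) fun v _ _ => (hpos v).le).trans hle
  refine (gibbs f rho (fun p => hpos _) h1).trans ?_
  rw [div_le_iff₀ hΩ]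
  have h2 : ∀ p : Ω, -Real.log (rho (f p)) =
      (Real.log 2 + Real.log N) - (if f p ∈ E then Real.log (1 / q) else 0) := by
    intro p
    simp only [hrho]
    split_ifs
    · rw [one_div, Real.log_inv, one_div, Real.log_inv, Real.log_mul (by positivity) hN.ne',
        Real.log_mul (by norm_num) hq0.ne']
      ring
    · rw [one_div, Real.log_inv, Real.log_mul (by norm_num) hN.ne']
      ring
  rw [Finset.sum_congr rfl fun p _ => h2 p, Finset.sum_sub_distrib, Finset.sum_const,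
    Finset.card_univ, nsmul_eq_mul, ← Finset.sum_filter, Finset.sum_const, nsmul_eq_mul]
  have hlq : 0 ≤ Real.log (1 / q) := Real.log_nonneg (by rw [le_div_iff₀ hq0]; linarith)
  have h5 := mul_le_mul_of_nonneg_right h hlq
  nlinarith

open Classical in
/-- the entropy of a function with at most `K` values -/
theorem ent_le {Ω β : Type*} [Fintype Ω] [Nonempty Ω] (f : Ω → β) (K : ℕ)
    (hK : ((univ : Finset Ω).image f).card ≤ K) : ent f ≤ Real.log K := by
  have hΩ : (0 : ℝ) < Fintype.card Ω := by exact_mod_cast Fintype.card_pos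
  have hpos : 0 < ((univ : Finset Ω).image f).card := Finset.card_pos.2 (Finset.univ_nonempty.image _)
  have hK0 : (0 : ℝ) < K := by exact_mod_cast hpos.trans_le hK
  refine (gibbs f (fun _ => 1 / (K : ℝ)) (fun _ => by positivity) ?_).trans ?_
  · rw [Finset.sum_const, nsmul_eq_mul, mul_one_div, div_le_one hK0]
    exact_mod_cast hK
  · rw [Finset.sum_const, Finset.card_univ, nsmul_eq_mul, mul_div_assoc, mul_comm, div_mul_cancel₀ _ hΩ.ne',
      one_div, Real.log_inv, neg_neg]

theorem card_image_inst {α β : Type*} (i1 i2 : DecidableEq β) (s : Finset α) (f : α → β) :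
    (@Finset.image α β i1 f s).card = (@Finset.image α β i2 f s).card := by
  rw [Subsingleton.elim i1 i2]

open Classical in
theorem ent_nonneg {Ω β : Type*} [Fintype Ω] (f : Ω → β) : 0 ≤ ent f := by
  unfold ent
  refine div_nonneg (Finset.sum_nonneg fun x _ => ?_) (Nat.cast_nonneg _)
  have h1 : (1 : ℝ) ≤ (#{x' | f x' = f x} : ℝ) := by
    have : 0 < (univ.filter (fun x' => f x' = f x)).card := Finset.card_pos.2 ⟨x, by simp⟩
    exact_mod_cast this
  have h2 : (#{x' | f x' = f x} : ℝ) ≤ Fintype.card Ω := by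
    exact_mod_cast Finset.card_le_univ _
  apply Real.log_nonneg
  rw [le_div_iff₀ (by linarith)]
  linarith

open Classical in
theorem ent_inj {Ω β : Type*} [Fintype Ω] [Nonempty Ω] (f : Ω → β) (hf : Function.Injective f) :
    ent f = Real.log (Fintype.card Ω) := by
  unfold ent
  have h : ∀ x, (univ.filter (fun x' => f x' = f x)).card = 1 := by
    intro x
    rw [Finset.card_eq_one]
    refine ⟨x, ?_⟩
    ext y
    simp [hf.eq_iff]
  have hN : (Fintype.card Ω : ℝ) ≠ 0 := by exact_mod_cast Fintype.card_ne_zero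
  simp only [h, Nat.cast_one, div_one, Finset.sum_const, Finset.card_univ, nsmul_eq_mul]
  field_simp

open Classical in
theorem ent_congr {Ω β γ : Type*} [Fintype Ω] (f : Ω → β) (f' : Ω → γ)
    (h : ∀ x y, f x = f y ↔ f' x = f' y) : ent f = ent f' := by
  unfold ent
  have e : ∀ x, (univ.filter (fun x' => f x' = f x)) = (univ.filter (fun x' => f' x' = f' x)) :=
    fun x => Finset.filter_congr fun y _ => h y x
  simp only [e]

open Classical in
theorem main {L : Type*} [Lattice L] [BoundedOrder L] [Fintype L] (b : ℕ) (M : Finset L)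
    (hM : ∀ a : L, SupIrred a → ∃ m ∈ M, a ≤ m)
    (hb : ∀ S ⊆ M, ∃ T ⊆ S, T.card ≤ b ∧ T.sup id = S.sup id) (l0 : ℝ) (hl0 : 3 ≤ l0)
    (hnum : ∀ Lam : ℝ, l0 ≤ Lam → ∀ (t t1 : ℕ) (K K1 e e1 eta : ℝ),
      t = ⌈2 * Lam ^ 2⌉₊ + 1 → K = (((t : ℝ) + 1) ^ b + 1) ^ b → e = 1 / Lam →
      e1 = 1 / (96 * ((b : ℝ) ^ 2 + 1)) → t1 = ⌈2 * Real.log K / e1⌉₊ + 1 →
      K1 = (((t1 : ℝ) + 1) ^ b + 1) ^ b → eta = e + Real.log K / (2 * Lam) →
      32 * eta ≤ 1 ∧ Real.log 2 + 2 * e * Lam + (2 * e + 2 * e1) * Real.log K + Real.log K1 <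
        1 / 4 * Real.log (1 / (48 * eta)))
    (hN : l0 ≤ Real.log (Fintype.card L)) :
    ∃ a ∈ M, 2 * (#{x : L | a ≤ x}) < Fintype.card L := by
  by_contra hcon
  push Not at hcon
  set N : ℝ := (Fintype.card L : ℝ) with hNdef
  have hNpos : 0 < N := by
    rw [hNdef]; exact_mod_cast Fintype.card_pos
  set l : ℝ := Real.log N with hl
  have hl1 : 1 ≤ l := by linarith
  have hlpos : 0 < l := by linarith
  obtain ⟨e, he⟩ : ∃ e : ℝ, e = 1 / l := ⟨_, rfl⟩
  obtain ⟨t, ht⟩ : ∃ t : ℕ, t = ⌈2 * l ^ 2⌉₊ + 1 := ⟨_, rfl⟩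
  obtain ⟨K, hK⟩ : ∃ K : ℕ, K = ((t + 1) ^ b + 1) ^ b := ⟨_, rfl⟩
  obtain ⟨e1, he1⟩ : ∃ e1 : ℝ, e1 = 1 / (96 * (b ^ 2 + 1)) := ⟨_, rfl⟩
  obtain ⟨t1, ht1⟩ : ∃ t1 : ℕ, t1 = ⌈2 * Real.log K / e1⌉₊ + 1 := ⟨_, rfl⟩
  obtain ⟨K1, hK1⟩ : ∃ K1 : ℕ, K1 = ((t1 + 1) ^ b + 1) ^ b := ⟨_, rfl⟩
  obtain ⟨η, hη⟩ : ∃ η : ℝ, η = e + Real.log K / (2 * l) := ⟨_, rfl⟩
  obtain ⟨hη32, hfin⟩ := hnum l hN t t1 K K1 e e1 η ht (by rw [hK]; push_cast; rfl) he he1 ht1
    (by rw [hK1]; push_cast; rfl) hη
  have hepos : 0 < e := by rw [he]; positivity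
  have he1pos : 0 < e1 := by rw [he1]; positivity
  have hte : 2 * l < e * t := by
    have h1 : 2 * l ^ 2 ≤ ⌈2 * l ^ 2⌉₊ := Nat.le_ceil _
    have h2 : 2 * l ^ 2 < t := by rw [ht]; push_cast; linarith
    rw [he, div_mul_eq_mul_div, one_mul, lt_div_iff₀ hlpos]
    linarith
  have hte1 : 2 * Real.log K < e1 * t1 := by
    have h1 : 2 * Real.log K / e1 ≤ ⌈2 * Real.log K / e1⌉₊ := Nat.le_ceil _
    have h2 : 2 * Real.log K / e1 < t1 := by rw [ht1]; push_cast; linarith
    rw [div_lt_iff₀ he1pos] at h2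
    linarith
  obtain ⟨g, g1, hg, hg1, hge, hge1, hcK, hcK1, href⟩ :=
    Pool.Agent.H51.TwoLev.two_levels b M hb e e1 t t1 hte (by rw [← hK]; exact hte1)
  rw [← hK] at hcK
  rw [← hK1] at hcK1
  -- coordinates
  set E := M.equivFin with hE
  set j : Fin M.card → L := fun m => (E.symm m : L) with hj
  have hjM : ∀ m, j m ∈ M := fun m => (E.symm m).2
  have hjs : ∀ a : L, SupIrred a → ∃ m, a ≤ j m := by
    intro a ha
    obtain ⟨c, hc, hac⟩ := hM a ha
    exact ⟨E ⟨c, hc⟩, by simpa [hj] using hac⟩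
  have hjsurj : ∀ a ∈ M, ∃ m, j m = a := fun a ha => ⟨E ⟨a, ha⟩, by simp [hj]⟩
  have hinj : ∀ x y : L, (∀ m, x ⊓ j m = y ⊓ j m) → x = y := by
    intro x y hxy
    refine Pool.Agent.H17.FM.eq_of_supIrred_le fun a ha => ?_
    obtain ⟨m, ham⟩ := hjs a ha
    have e1 : a ≤ x ↔ a ≤ x ⊓ j m := by simp [ham]
    have e2 : a ≤ y ↔ a ≤ y ⊓ j m := by simp [ham]
    rw [e1, e2, hxy m]
  -- the classes
  set F : L → Finset L := fun x => M.filter (fun m => g m ≤ x) with hF
  set F1 : L → Finset L := fun x => M.filter (fun m => g1 m ≤ x) with hF1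
  have hFg : ∀ x y, F x = F y → ∀ m ∈ M, (g m ≤ x ↔ g m ≤ y) := by
    intro x y hxy m hm
    have h1 : m ∈ F x ↔ m ∈ F y := by rw [hxy]
    simpa [hF, hm] using h1
  have hF1g : ∀ x y, F1 x = F1 y → ∀ m ∈ M, (g1 m ≤ x ↔ g1 m ≤ y) := by
    intro x y hxy m hm
    have h1 : m ∈ F1 x ↔ m ∈ F1 y := by rw [hxy]
    simpa [hF1, hm] using h1
  have hFF1 : ∀ x y, F x = F y → F1 x = F1 y := by
    intro x y hxy
    have h1 := href x y (hFg x y hxy)
    simp only [hF1]
    exact Finset.filter_congr fun m hm => h1 m hm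
  have hFinf : ∀ x y, F (x ⊓ y) = F x ∩ F y := by
    intro x y
    ext m
    simp only [hF, Finset.mem_filter, Finset.mem_inter, le_inf_iff]
    tauto
  have hF1inf : ∀ x y, F1 (x ⊓ y) = F1 x ∩ F1 y := by
    intro x y
    ext m
    simp only [hF1, Finset.mem_filter, Finset.mem_inter, le_inf_iff]
    tauto
  -- the counts
  have hhalf : ∀ m ∈ M, N / 2 ≤ (#{y : L | m ≤ y} : ℝ) := by
    intro m hm
    have h1 := hcon m hm
    have h2 : N ≤ 2 * (#{y : L | m ≤ y} : ℝ) := by
      rw [hNdef]; exact_mod_cast h1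
    linarith
  have hcg : ∀ m, (1 / 2 - e) * N ≤ (#{y : L | g (j m) ≤ y} : ℝ) := by
    intro m
    have h1 := hge (j m) (hjM m)
    have h2 := hhalf (j m) (hjM m)
    rw [← hNdef] at h1
    linarith
  have hcg1 : ∀ m, (1 / 2 - e - e1) * N ≤ (#{y : L | g1 (j m) ≤ y} : ℝ) := by
    intro m
    have h1 := hge1 (j m) (hjM m)
    have h2 := hcg m
    rw [← hNdef] at h1
    linarith
  -- the number of elements is at least two
  have hcard2 : 2 ≤ Fintype.card L := by
    by_contra h
    push Not at h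
    have h1 : N ≤ 1 := by
      rw [hNdef]; exact_mod_cast Nat.lt_succ_iff.1 h
    have h2 := Real.log_nonpos hNpos.le h1
    linarith
  -- bounds on the numbers
  have hKpos : 0 < K := by rw [hK]; positivity
  have hK1pos : 0 < K1 := by rw [hK1]; positivity
  have hlogK : 0 ≤ Real.log K := Real.log_natCast_nonneg _
  have hlogK1 : 0 ≤ Real.log K1 := Real.log_natCast_nonneg _
  have hηpos : 0 < η := by rw [hη]; positivity
  have hη1 : 48 * η ≤ 1 := by
    by_contra hcon2
    push Not at hcon2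
    have h1 : Real.log (1 / (48 * η)) ≤ 0 := by
      apply Real.log_nonpos (by positivity)
      rw [div_le_one (by positivity)]
      exact hcon2.le
    have h2 : 0 ≤ Real.log 2 := Real.log_nonneg (by norm_num)
    have h3 : 0 ≤ 2 * e * l := by positivity
    have h4 : 0 ≤ (2 * e + 2 * e1) * Real.log K := by positivity
    linarith
  have hηe : e ≤ η := by
    rw [hη]
    have : 0 ≤ Real.log K / (2 * l) := by positivity
    linarith
  have he1le : e1 ≤ 1 / 96 := by
    rw [he1]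
    apply one_div_le_one_div_of_le (by norm_num)
    have : (0 : ℝ) ≤ (b : ℝ) ^ 2 := by positivity
    linarith
  -- the exceptional set
  obtain ⟨X, hX0, hX4⟩ := Pool.Agent.H31.LB.eset (L := L) j (fun m => g (j m))
    (fun m => hg _ (hjM m)) hinj F (fun x y hxy m => hFg x y hxy (j m) (hjM m)) K
    (by exact_mod_cast (card_image_inst _ _ _ _).trans_le hcK) e hepos.le hcard2 hcg
    (by rw [← hNdef, ← hl, ← hη]; exact hη32)
  have hX : (X.card : ℝ) ≤ 48 * η * Fintype.card L := by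
    rw [← hNdef, ← hl, ← hη] at hX0
    rw [← hNdef]
    have : 0 ≤ η * N := by positivity
    linarith
  have hkl := kl (Ω := L × L) (fun p => p.1 ⊓ p.2) X (48 * η) (by positivity) hη1 hX
    (by
      rw [Fintype.card_prod]
      push_cast
      calc (Fintype.card L : ℝ) * Fintype.card L / 4 = (Fintype.card L : ℝ) ^ 2 / 4 := by ring
        _ ≤ _ := hX4)
  -- the first step
  have hA := step (L := L) (fun x y => x ⊓ y) (fun x m => x ⊓ j m) F
    (fun (m : Fin M.card) (x : L) => x ⊓ j m) (fun T => univ.filter (fun m => j m ∈ T))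
    (1 / 2 - e) (by linarith)
    (fun x y hxy => by rw [hinj x y fun m => congrFun hxy m])
    (fun x y _ hxy => funext hxy)
    (fun x x' y y' hx hy => by
      show F (x ⊓ y) = F (x' ⊓ y')
      rw [hFinf, hFinf, hx, hy])
    (fun x x' y y' hx hy hxy m hm => by
      have hm' : j m ∈ F y := by simpa using hm
      have h1 : g (j m) ≤ y := (Finset.mem_filter.1 hm').2
      have h2 : g (j m) ≤ y' := (Finset.mem_filter.1 (hy ▸ hm' : j m ∈ F y')).2
      have h3 : j m ≤ y := (hg _ (hjM m)).trans h1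
      have h4 : j m ≤ y' := (hg _ (hjM m)).trans h2
      have h5 : x ⊓ y ⊓ j m = x' ⊓ y' ⊓ j m := congrFun hxy m
      rw [inf_assoc, inf_assoc, inf_eq_right.2 h3, inf_eq_right.2 h4] at h5
      exact h5)
    (fun x x' y y' hx hy hxy m hm => by
      have hm' : j m ∈ F x := by simpa using hm
      have h1 : g (j m) ≤ x := (Finset.mem_filter.1 hm').2
      have h2 : g (j m) ≤ x' := (Finset.mem_filter.1 (hx ▸ hm' : j m ∈ F x')).2
      have h3 : j m ≤ x := (hg _ (hjM m)).trans h1
      have h4 : j m ≤ x' := (hg _ (hjM m)).trans h2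
      have h5 : x ⊓ y ⊓ j m = x' ⊓ y' ⊓ j m := congrFun hxy m
      rw [inf_comm x, inf_comm x', inf_assoc, inf_assoc, inf_eq_right.2 h3,
        inf_eq_right.2 h4] at h5
      exact h5)
    (fun m => by
      have h1 := hcg m
      have h2 : (univ.filter fun y => m ∈ (univ.filter (fun m => j m ∈ F y))) =
          univ.filter (fun y : L => g (j m) ≤ y) := by
        ext y
        simp [hF, hjM]
      rw [h2]
      exact h1)
  -- the second step
  have hB := step (L := L) (fun x y => x ⊓ y) F F1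
    (fun (m : Fin M.card) (x : L) => decide (g (j m) ≤ x))
    (fun T => univ.filter (fun m => j m ∈ T)) (1 / 2 - e - e1) (by linarith)
    hFF1
    (fun x y _ hxy => by
      simp only [hF]
      refine Finset.filter_congr fun a ha => ?_
      obtain ⟨m, rfl⟩ := hjsurj a ha
      have := hxy m
      simpa using this)
    (fun x x' y y' hx hy => by
      show F1 (x ⊓ y) = F1 (x' ⊓ y')
      rw [hF1inf, hF1inf, hx, hy])
    (fun x x' y y' hx hy hxy m hm => by
      have hm' : j m ∈ F1 y := by simpa using hm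
      have h1 : g1 (j m) ≤ y := (Finset.mem_filter.1 hm').2
      have h2 : g1 (j m) ≤ y' := (Finset.mem_filter.1 (hy ▸ hm' : j m ∈ F1 y')).2
      have h3 : g (j m) ≤ y := (hg1 _ (hjM m)).trans h1
      have h4 : g (j m) ≤ y' := (hg1 _ (hjM m)).trans h2
      have h5 := hFg _ _ hxy (j m) (hjM m)
      simp only [le_inf_iff, h3, h4, and_true] at h5
      simpa using h5)
    (fun x x' y y' hx hy hxy m hm => by
      have hm' : j m ∈ F1 x := by simpa using hm
      have h1 : g1 (j m) ≤ x := (Finset.mem_filter.1 hm').2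
      have h2 : g1 (j m) ≤ x' := (Finset.mem_filter.1 (hx ▸ hm' : j m ∈ F1 x')).2
      have h3 : g (j m) ≤ x := (hg1 _ (hjM m)).trans h1
      have h4 : g (j m) ≤ x' := (hg1 _ (hjM m)).trans h2
      have h5 := hFg _ _ hxy (j m) (hjM m)
      simp only [le_inf_iff, h3, h4, true_and] at h5
      simpa using h5)
    (fun m => by
      have h1 := hcg1 m
      have h2 : (univ.filter fun y => m ∈ (univ.filter (fun m => j m ∈ F1 y))) =
          univ.filter (fun y : L => g1 (j m) ≤ y) := by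
        ext y
        simp [hF1, hjM]
      rw [h2]
      exact h1)
  have hent : ent (fun x m => x ⊓ j m) = l := by
    rw [ent_inj _ (fun x y hxy => hinj x y fun m => congrFun hxy m), ← hNdef]
  have hent2 : ent (fun (p : L × L) m => p.1 ⊓ p.2 ⊓ j m) = ent (fun p : L × L => p.1 ⊓ p.2) := by
    refine ent_congr _ _ fun p q => ⟨fun h => hinj _ _ fun m => congrFun h m, fun h => ?_⟩
    funext m
    show p.1 ⊓ p.2 ⊓ j m = q.1 ⊓ q.2 ⊓ j m
    rw [h]
  rw [hent, hent2] at hA
  have hHF : ent F ≤ Real.log K := ent_le F K ((card_image_inst _ _ _ _).trans_le hcK)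
  have hHF1 : ent F1 ≤ Real.log K1 := ent_le F1 K1 ((card_image_inst _ _ _ _).trans_le hcK1)
  have hHF0 : 0 ≤ ent F := ent_nonneg F
  have hHF10 : 0 ≤ ent F1 := ent_nonneg F1
  have hpos1 := ent_nonneg (fun p : L × L => F1 (p.1 ⊓ p.2))
  rw [← hNdef, ← hl] at hkl
  have hc1 : 0 ≤ 1 - 2 * e - 2 * e1 := by linarith
  have h1 : 2 * e1 * ent F ≤ 2 * e1 * Real.log K :=
    mul_le_mul_of_nonneg_left hHF (by linarith)
  have h2 : (1 - 2 * e - 2 * e1) * ent F1 ≤ Real.log K1 := by
    have h3 : (1 - 2 * e - 2 * e1) * ent F1 ≤ 1 * ent F1 :=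
      mul_le_mul_of_nonneg_right (by linarith) hHF10
    linarith
  have h4 : 0 ≤ 2 * e * Real.log K := by positivity
  nlinarith [hA, hB, hkl, hfin, h1, h2, h4, hpos1]

end Pool.Agent.H80.Vc
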